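import Pool.Agent.Q205.FC.Accum

/-!
`RCA₀ + finite-Σ¹₁-AC₀`, and even `RCA₀ + Σ¹₁-AC₀`, does not prove `ABW₀`.

The numbers of the model are an ultrapower of the natural numbers. Its sets are the sections
`{x | (a, x) ∈ J_k}` of the levels `J_k`, `k` standard, of a hierarchy obtained by iterating an
operator which is strong enough for arithmetical comprehension. By saturation the choice scheme of
`Σ¹₁-AC₀` holds. The formula which says that `X` is `0ⁿ1` followed by the hierarchy of length `n` has
exactly one solution for each standard `n`, and no other solutions.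
-/

namespace Pool.Agent.Results.MP_3f22c5_lc.ChoiceWithoutABW

open Pool.Agent.Q205.RS Pool.Agent.Q205.FC

/-- There is a model of `RCA₀` which satisfies `Σ¹₁-AC₀`, hence `finite-Σ¹₁-AC₀`, and does not
satisfy `ABW₀`. -/
theorem result : ∃ N : L2Structure, IsRCA0 N ∧ SigmaAC N ∧ FiniteSigmaAC N ∧ ¬ ABW N :=
  ⟨Nm, isRCA0, sigmaAC, finiteSigmaAC, not_ABW⟩

end Pool.Agent.Results.MP_3f22c5_lc.ChoiceWithoutABW
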